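import Pool.Agent.W554.EC.BTS

/-! # EC-B10: the bilinear estimate -/

set_option autoImplicit false

namespace Pool.Agent.W554.EC

open Finset Filter
open Pool.Agent.H376R2.MR
open Pool.Agent.W78.GA
open Pool.Agent.W78.EC

theorem ev_log (A : ℝ) : ∀ᶠ Q : ℕ in atTop, A ≤ Real.log Q ∧ Real.log Q ^ 3 ≤ (Q : ℝ) ∧
    1 ≤ Real.log Q ∧ 3 ≤ Q := by
  have h1 : Tendsto (fun Q : ℕ => Real.log (Q : ℝ)) atTop atTop :=
    Real.tendsto_log_atTop.comp tendsto_natCast_atTop_atTop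
  have h2 : ∀ᶠ x : ℝ in atTop, Real.log x ^ 3 ≤ x := by
    have h := (Real.isLittleO_pow_log_id_atTop (n := 3)).bound (c := 1) (by norm_num)
    filter_upwards [h, eventually_ge_atTop (1 : ℝ)] with x hx hx1
    rw [Real.norm_eq_abs, one_mul, Real.norm_eq_abs, id, abs_of_nonneg (by linarith : (0:ℝ) ≤ x)] at hx
    exact (le_abs_self _).trans hx
  filter_upwards [h1.eventually_ge_atTop A, h1.eventually_ge_atTop 1,
    tendsto_natCast_atTop_atTop.eventually h2, eventually_ge_atTop 3] with Q a1 a2 a3 a4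
  exact ⟨a1, a3, a2, a4⟩

theorem bt (h1 : S_GG0) (h2 : S_BTM) (h3 : S_LN) (h4 : S_DTB) : S_BT := by
  classical
  intro K κ s s₁ s₂ ε hK hκ hs hs₁ hs₁₂ hs₂ hε
  set C₁ : ℝ := 36 * (1 / κ + 1) with hC₁
  have hC₁0 : 0 < C₁ := by positivity
  set η : ℝ := ε / C₁ with hη
  have hη0 : 0 < η := by positivity
  set δ : ℝ := ε * η with hδ
  have hδ0 : 0 < δ := by positivity
  obtain ⟨C, hC⟩ := h3 s₁ hs₁
  obtain ⟨Q₁, hQ₁⟩ := h1 K κ s₁ (δ / 9) hK hκ hs₁ (by positivity)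
  obtain ⟨Q₂, hQ₂⟩ := h2 K κ s₁ s₂ δ hK hκ hs₁ hs₁₂ hs₂ hδ0
  obtain ⟨Q₃, hQ₃⟩ := eventually_atTop.1 (ev_log (192 * C₁ * C ^ 2 / δ))
  refine ⟨max Q₁ (max Q₂ Q₃), fun Q hQ => ?_⟩
  have hQa : Q₁ ≤ Q := (le_max_left _ _).trans hQ
  have hQb : Q₂ ≤ Q := ((le_max_left _ _).trans (le_max_right _ _)).trans hQ
  have hQc : Q₃ ≤ Q := ((le_max_right _ _).trans (le_max_right _ _)).trans hQ
  obtain ⟨l1, l2, l3, l4⟩ := hQ₃ Q hQc
  obtain ⟨X₀, hX₀⟩ := hQ₂ Q hQb
  refine ⟨max X₀ (2 * (K * Q : ℝ)), fun X hX α hα _ => ?_⟩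
  have hXa : X₀ ≤ X := (le_max_left _ _).trans hX
  have hXb : 2 * (K * Q : ℝ) ≤ X := (le_max_right _ _).trans hX
  have hQ1 : 1 ≤ Q := by omega
  have hQR : (1 : ℝ) ≤ Q := by exact_mod_cast hQ1
  have hKR : (1 : ℝ) ≤ K := by exact_mod_cast hK
  have hX1 : 1 ≤ X := by nlinarith
  have hX0 : 0 < X := by linarith
  have hQ0 : (0 : ℝ) < Q := by linarith
  have hl0 : 0 < Real.log Q := by linarith
  set R : ℝ := (Q : ℝ) / Real.log Q ^ 3 with hR
  have hR1 : 1 ≤ R := by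
    rw [hR, le_div_iff₀ (by positivity), one_mul]; exact l2
  have hR0 : 0 < R := by linarith
  have hcone := cone_total h4 hK hκ hQ1 hXb
  rw [← hC₁] at hcone
  have hgood := good_card (κ := κ) hK hQ1 hXb
  -- the second moment
  set SS : Gi × Gi → Gi → ℝ := fun e v => ∑ w ∈ cw X s₁ s₂ e.1 e.2, (gl w : ℝ) * th Q (dt v w)
    with hSS
  have hsec : ∑ e ∈ good K κ Q X, ∑ v ∈ cone X e.1 e.2, SS e v ^ 2 ≤ δ * X * (Q : ℝ) ^ 2 := by
    set F : Gi → Gi → ℝ := fun a b => (gl a : ℝ) * gl b * Gv Q X a b with hF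
    have hFs : ∀ a b, F a b = F b a := by
      intro a b
      rw [hF]
      simp only
      rw [Gv_symm]
      ring
    have e1 : ∀ e ∈ good K κ Q X, 9 * ∑ v ∈ cone X e.1 e.2, SS e v ^ 2 ≤
        ∑ w₁ ∈ cw X s₁ s₂ e.1 e.2, ∑ w₂ ∈ cw X s₁ s₂ e.1 e.2, F w₁ w₂ := by
      intro e _
      rw [hF, ← sq_expand, mul_sum]
      have hsub : cone X e.1 e.2 ⊆ ball 0 1 (4 * X) := by
        intro z hz
        obtain ⟨q1, q3⟩ := cone_mem hz
        rw [mem_ball hD01]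
        exact ⟨(one_le_nm hD01).2 (prim_ne_zero q1), by linarith⟩
      refine le_trans (sum_le_sum fun v hv => ?_) (sum_le_sum_of_subset_of_nonneg hsub
        fun v _ _ => mul_nonneg (psi_nonneg _) (sq_nonneg _))
      apply mul_le_mul_of_nonneg_right _ (sq_nonneg _)
      apply psi_ge
      rw [div_le_one hX0]
      exact (cone_mem hv).2
    set B : Gi × Gi → ℝ := fun e => ∑ w₁ ∈ cw X s₁ s₂ e.1 e.2, ∑ w₂ ∈ cw X s₁ s₂ e.1 e.2,
      (if R ≤ (dt w₁ w₂ : ℝ) then F w₁ w₂ else 0) with hB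
    set B0 : Gi × Gi → ℝ := fun e => ∑ w₁ ∈ cw X s₁ s₂ e.1 e.2, ∑ w₂ ∈ cw X s₁ s₂ e.1 e.2,
      (if R ≤ (dt w₁ w₂ : ℝ) then (gl w₁ : ℝ) * gl w₂ * G0 Q X w₁ w₂ else 0) with hB0
    set Sm : Gi × Gi → ℝ := fun e => ∑ w₁ ∈ cw X s₁ s₂ e.1 e.2, ∑ w₂ ∈ cw X s₁ s₂ e.1 e.2,
      (if |(dt w₁ w₂ : ℝ)| < R then F w₁ w₂ else 0) with hSm
    have e2 : ∀ e ∈ good K κ Q X, 9 * ∑ v ∈ cone X e.1 e.2, SS e v ^ 2 ≤ 2 * B e + Sm e := by
      intro e he
      refine (e1 e he).trans (le_of_eq ?_)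
      rw [split3 _ R hR0 F hFs]
    have e3 : ∀ e ∈ good K κ Q X, B e ≤ B0 e + δ / 9 * (Q : ℝ) ^ 3 := by
      intro e he
      have g1 := hQ₁ Q hQa X hXb e he
      rw [← hR] at g1
      have g2 : B e - B0 e ≤ ∑ w₁ ∈ cw X s₁ 1 e.1 e.2, ∑ w₂ ∈ cw X s₁ 1 e.1 e.2,
          (if R ≤ (dt w₁ w₂ : ℝ) then |Gv Q X w₁ w₂ - G0 Q X w₁ w₂| else 0) := by
        rw [hB, hB0]
        simp only [← sum_sub_distrib]
        have hsub : cw X s₁ s₂ e.1 e.2 ⊆ cw X s₁ 1 e.1 e.2 := by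
          intro z hz
          unfold cw at hz ⊢
          rw [mem_filter] at hz ⊢
          refine ⟨hz.1, hz.2.1, hz.2.2.trans ?_⟩
          exact mul_le_mul_of_nonneg_right hs₂ hX0.le
        have nn : ∀ a b : Gi, 0 ≤ (if R ≤ (dt a b : ℝ) then |Gv Q X a b - G0 Q X a b| else 0) := by
          intro a b
          split_ifs
          · exact abs_nonneg _
          · exact le_rfl
        refine le_trans (sum_le_sum fun a _ => ?_) (sum_le_sum_of_subset_of_nonneg hsub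
          fun a _ _ => sum_nonneg fun b _ => nn a b)
        refine le_trans (sum_le_sum fun b _ => ?_) (sum_le_sum_of_subset_of_nonneg hsub
          fun b _ _ => nn a b)
        split_ifs
        · rw [hF]
          simp only
          rw [← mul_sub]
          refine (le_abs_self _).trans ?_
          rw [abs_mul, abs_mul, gl_abs, gl_abs, one_mul, one_mul]
        · rw [sub_zero]
      linarith
    have e4 : ∑ e ∈ good K κ Q X, B0 e ≤ δ * X * (Q : ℝ) ^ 2 :=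
      (le_abs_self _).trans (hX₀ X hXa)
    have e5 : ∀ e ∈ good K κ Q X, Sm e ≤ ((cone X e.1 e.2).card : ℝ) *
        (48 * (C : ℝ) ^ 2 * R * Q * Real.log (2 * Q) ^ 2) := by
      intro e _
      refine (le_abs_self _).trans ?_
      exact small_part hX0 hQ1 hR1 (fun w m hw hn => hC X w m hX1 hw hn) e.1 e.2
    have e6 : 9 * ∑ e ∈ good K κ Q X, ∑ v ∈ cone X e.1 e.2, SS e v ^ 2 ≤
        2 * (∑ e ∈ good K κ Q X, B e) + ∑ e ∈ good K κ Q X, Sm e := by
      rw [mul_sum, mul_sum, ← sum_add_distrib]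
      exact sum_le_sum e2
    have e7 : ∑ e ∈ good K κ Q X, B e ≤ 2 * (δ * X * (Q : ℝ) ^ 2) := by
      refine (sum_le_sum e3).trans ?_
      rw [sum_add_distrib, sum_const, nsmul_eq_mul]
      have g1 : ((good K κ Q X).card : ℝ) * (δ / 9 * (Q : ℝ) ^ 3) ≤
          9 * (X / (K * Q)) * (δ / 9 * (Q : ℝ) ^ 3) :=
        mul_le_mul_of_nonneg_right hgood (by positivity)
      have g2 : 9 * (X / (K * Q)) * (δ / 9 * (Q : ℝ) ^ 3) = (δ * X * (Q : ℝ) ^ 2) / K := by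
        field_simp
      have g3 : (δ * X * (Q : ℝ) ^ 2) / K ≤ δ * X * (Q : ℝ) ^ 2 := div_le_self (by positivity) hKR
      linarith
    have e8 : ∑ e ∈ good K κ Q X, Sm e ≤ δ * X * (Q : ℝ) ^ 2 := by
      refine (sum_le_sum e5).trans ?_
      rw [← sum_mul]
      have g0 : Real.log (2 * Q) ≤ 2 * Real.log Q := by
        rw [Real.log_mul (by norm_num) (by positivity)]
        have : Real.log 2 ≤ Real.log Q := by
          apply Real.log_le_log (by norm_num)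
          have : (3 : ℝ) ≤ Q := by exact_mod_cast l4
          linarith
        linarith
      have g00 : 0 ≤ Real.log (2 * Q) := Real.log_nonneg (by linarith)
      have g1 : Real.log (2 * Q) ^ 2 ≤ 4 * Real.log Q ^ 2 := by nlinarith
      have g2 : 48 * (C : ℝ) ^ 2 * R * Q * Real.log (2 * Q) ^ 2 ≤
          48 * (C : ℝ) ^ 2 * R * Q * (4 * Real.log Q ^ 2) :=
        mul_le_mul_of_nonneg_left g1 (by positivity)
      have g3 : 48 * (C : ℝ) ^ 2 * R * Q * (4 * Real.log Q ^ 2) =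
          192 * (C : ℝ) ^ 2 * (Q : ℝ) ^ 2 / Real.log Q := by
        rw [hR]
        field_simp
        ring
      have g4 : 0 ≤ 192 * (C : ℝ) ^ 2 * (Q : ℝ) ^ 2 / Real.log Q := by positivity
      calc (∑ e ∈ good K κ Q X, ((cone X e.1 e.2).card : ℝ)) *
            (48 * (C : ℝ) ^ 2 * R * Q * Real.log (2 * Q) ^ 2)
          ≤ (C₁ * X) * (192 * (C : ℝ) ^ 2 * (Q : ℝ) ^ 2 / Real.log Q) := by
            apply mul_le_mul hcone (g2.trans_eq g3) (by positivity) (by positivity)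
        _ = (192 * C₁ * (C : ℝ) ^ 2 / Real.log Q) * (X * (Q : ℝ) ^ 2) := by ring
        _ ≤ δ * (X * (Q : ℝ) ^ 2) := by
            apply mul_le_mul_of_nonneg_right _ (by positivity)
            rw [div_le_iff₀ hl0]
            rw [div_le_iff₀ hδ0] at l1
            linarith
        _ = _ := by ring
    have hpos : 0 ≤ δ * X * (Q : ℝ) ^ 2 := by positivity
    linarith
  -- the final step
  have hmain : |∑ e ∈ good K κ Q X, ∑ v ∈ cone X e.1 e.2, ∑ w ∈ cw X s₁ s₂ e.1 e.2,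
      α v * gl w * th Q (dt v w)| ≤
      ∑ e ∈ good K κ Q X, ∑ v ∈ cone X e.1 e.2, (η * Q / 2 + SS e v ^ 2 / (2 * (η * Q))) := by
    refine (abs_sum_le_sum_abs _ _).trans (sum_le_sum fun e _ => ?_)
    refine (abs_sum_le_sum_abs _ _).trans (sum_le_sum fun v _ => ?_)
    have a1 : ∑ w ∈ cw X s₁ s₂ e.1 e.2, α v * gl w * th Q (dt v w) = α v * SS e v := by
      rw [hSS]
      simp only
      rw [mul_sum]
      exact sum_congr rfl fun w _ => by ring
    rw [a1, abs_mul]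
    have a2 : |α v| * |SS e v| ≤ |SS e v| := by
      calc |α v| * |SS e v| ≤ 1 * |SS e v| :=
            mul_le_mul_of_nonneg_right (hα v) (abs_nonneg _)
        _ = _ := one_mul _
    refine a2.trans ?_
    have hp : 0 < η * Q := by positivity
    have a3 : SS e v ^ 2 = |SS e v| ^ 2 := (sq_abs _).symm
    rw [a3]
    have a4 : 0 ≤ (|SS e v| - η * Q) ^ 2 / (2 * (η * Q)) := by positivity
    have a5 : (|SS e v| - η * Q) ^ 2 / (2 * (η * Q)) =
        η * Q / 2 + |SS e v| ^ 2 / (2 * (η * Q)) - |SS e v| := by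
      field_simp
      ring
    linarith
  refine hmain.trans ?_
  have b1 : ∑ e ∈ good K κ Q X, ∑ v ∈ cone X e.1 e.2, (η * Q / 2 + SS e v ^ 2 / (2 * (η * Q))) =
      (η * Q / 2) * ∑ e ∈ good K κ Q X, ((cone X e.1 e.2).card : ℝ) +
      1 / (2 * (η * Q)) * ∑ e ∈ good K κ Q X, ∑ v ∈ cone X e.1 e.2, SS e v ^ 2 := by
    rw [mul_sum, mul_sum, ← sum_add_distrib]
    refine sum_congr rfl fun e _ => ?_
    rw [sum_add_distrib, sum_const, nsmul_eq_mul, mul_sum]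
    congr 1
    · ring
    · exact sum_congr rfl fun v _ => by ring
  rw [b1]
  have b2 : (η * Q / 2) * ∑ e ∈ good K κ Q X, ((cone X e.1 e.2).card : ℝ) ≤
      (η * Q / 2) * (C₁ * X) := mul_le_mul_of_nonneg_left hcone (by positivity)
  have b3 : 1 / (2 * (η * Q)) * ∑ e ∈ good K κ Q X, ∑ v ∈ cone X e.1 e.2, SS e v ^ 2 ≤
      1 / (2 * (η * Q)) * (δ * X * (Q : ℝ) ^ 2) := mul_le_mul_of_nonneg_left hsec (by positivity)
  have b4 : (η * Q / 2) * (C₁ * X) = ε * X * Q / 2 := by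
    rw [hη]; field_simp
  have b5 : 1 / (2 * (η * Q)) * (δ * X * (Q : ℝ) ^ 2) = ε * X * Q / 2 := by
    rw [hδ]; field_simp
  linarith

end Pool.Agent.W554.EC
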