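import Pool.Agent.W78.EC.Defs2

/-! # EC-B10: counting -/

set_option autoImplicit false

namespace Pool.Agent.W554.EC

open Finset Filter
open Pool.Agent.H376R2.MR
open Pool.Agent.W78.GA
open Pool.Agent.W78.EC

theorem hD01 : (0 : ℤ) ^ 2 < 4 * 1 := by norm_num

theorem nm_eq (z : Gi) : (nm z : ℤ) = z.re ^ 2 + z.im ^ 2 := by
  rw [nm_cast hD01]; ring

theorem nm_eqR (z : Gi) : (nm z : ℝ) = (z.re : ℝ) ^ 2 + (z.im : ℝ) ^ 2 := by
  have := nm_eq z
  exact_mod_cast this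

theorem ball_card {Y : ℝ} (hY : 1 ≤ Y) : ((ball 0 1 Y).card : ℝ) ≤ 9 * Y := by
  classical
  set N : ℕ := ⌊Real.sqrt Y⌋₊ with hN
  have hsq : Real.sqrt Y * Real.sqrt Y = Y := Real.mul_self_sqrt (by linarith)
  have h1s : 1 ≤ Real.sqrt Y := by
    rw [Real.one_le_sqrt]; exact hY
  have hsub : ball 0 1 Y ⊆ ((Icc (-(N : ℤ)) N) ×ˢ (Icc (-(N : ℤ)) N)).image
      (fun p => (⟨p.1, p.2⟩ : Gi)) := by
    intro z hz
    rw [mem_ball hD01] at hz
    have h2 := hz.2
    rw [nm_eqR] at h2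
    have key : ∀ x : ℤ, (x : ℝ) ^ 2 ≤ Y → -(N : ℤ) ≤ x ∧ x ≤ N := by
      intro x hx
      have h3 : |(x : ℝ)| ≤ Real.sqrt Y := Real.abs_le_sqrt hx
      have h4 : x.natAbs ≤ N := by
        rw [hN]
        apply Nat.le_floor
        have h5 : ((x.natAbs : ℕ) : ℝ) = |(x : ℝ)| := by
          rw [Nat.cast_natAbs]; simp
        rw [h5]; exact h3
      omega
    rw [mem_image]
    refine ⟨(z.re, z.im), ?_, rfl⟩
    rw [mem_product, mem_Icc, mem_Icc]
    exact ⟨key _ (by nlinarith [sq_nonneg (z.im : ℝ)]), key _ (by nlinarith [sq_nonneg (z.re : ℝ)])⟩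
  have h1 := (card_le_card hsub).trans card_image_le
  rw [card_product, Int.card_Icc] at h1
  have h2 : ((N : ℤ) + 1 - -(N : ℤ)).toNat = 2 * N + 1 := by omega
  rw [h2] at h1
  have h3 : ((ball 0 1 Y).card : ℝ) ≤ (2 * (N : ℝ) + 1) * (2 * (N : ℝ) + 1) := by exact_mod_cast h1
  have h4 : (N : ℝ) ≤ Real.sqrt Y := Nat.floor_le (by positivity)
  have h5 : (0 : ℝ) ≤ N := Nat.cast_nonneg _
  refine h3.trans ?_
  calc (2 * (N : ℝ) + 1) * (2 * (N : ℝ) + 1) ≤ (3 * Real.sqrt Y) * (3 * Real.sqrt Y) := by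
        apply mul_le_mul <;> linarith
    _ = 9 * (Real.sqrt Y * Real.sqrt Y) := by ring
    _ = 9 * Y := by rw [hsq]

theorem prim_mul {a d : Gi} (ha : prim a) (h : dt a d = 0) : ∃ k : ℤ, d.re = k * a.re ∧
    d.im = k * a.im := by
  have hco : IsCoprime a.re a.im := Int.isCoprime_iff_gcd_eq_one.2 ha
  obtain ⟨x, y, hxy⟩ := hco
  unfold dt at h
  refine ⟨x * d.re + y * d.im, ?_, ?_⟩
  · have : a.re * d.im = a.im * d.re := by linarith
    calc d.re = (x * a.re + y * a.im) * d.re := by rw [hxy, one_mul]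
      _ = x * a.re * d.re + y * (a.im * d.re) := by ring
      _ = x * a.re * d.re + y * (a.re * d.im) := by rw [this]
      _ = _ := by ring
  · have : a.re * d.im = a.im * d.re := by linarith
    calc d.im = (x * a.re + y * a.im) * d.im := by rw [hxy, one_mul]
      _ = x * (a.re * d.im) + y * a.im * d.im := by ring
      _ = x * (a.im * d.re) + y * a.im * d.im := by rw [this]
      _ = _ := by ring

theorem edge_aux {Y : ℝ} {a b b' : Gi} (ha : prim a) (h1 : dt a b = 1) (h2 : dt a b' = 1)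
    (hb : (nm b : ℝ) ≤ Y) (hb' : (nm b' : ℝ) ≤ Y) (h3 : Y < (nm (a + b) : ℝ))
    (h4 : Y < (nm (a + b') : ℝ)) : b = b' := by
  have key : ∀ b b' : Gi, ∀ k : ℤ, 1 ≤ k → (nm b : ℝ) ≤ Y → (nm b' : ℝ) ≤ Y →
      Y < (nm (a + b) : ℝ) → b'.re = b.re + k * a.re → b'.im = b.im + k * a.im → False := by
    intro b b' k hk hb hb' h3 e1 e2
    rw [nm_eqR] at hb hb' h3
    rw [QuadraticAlgebra.re_add, QuadraticAlgebra.im_add] at h3
    rw [e1, e2] at hb'
    push_cast at hb' h3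
    have hk' : (1 : ℝ) ≤ k := by exact_mod_cast hk
    set p : ℝ := (a.re : ℝ)
    set q : ℝ := (a.im : ℝ)
    set x : ℝ := (b.re : ℝ)
    set y : ℝ := (b.im : ℝ)
    set κ : ℝ := (k : ℝ)
    -- κ f(1) ≤ (κ-1) f(0) + f(κ)
    have h5 : κ * ((p + x) ^ 2 + (q + y) ^ 2) ≤ (κ - 1) * (x ^ 2 + y ^ 2) +
        ((x + κ * p) ^ 2 + (y + κ * q) ^ 2) := by
      have : (κ - 1) * (x ^ 2 + y ^ 2) +
        ((x + κ * p) ^ 2 + (y + κ * q) ^ 2) - κ * ((p + x) ^ 2 + (q + y) ^ 2) =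
        κ * (κ - 1) * (p ^ 2 + q ^ 2) := by ring
      have h6 : 0 ≤ κ * (κ - 1) * (p ^ 2 + q ^ 2) := by
        apply mul_nonneg
        · apply mul_nonneg <;> linarith
        · positivity
      linarith
    have h6 : (κ - 1) * (x ^ 2 + y ^ 2) ≤ (κ - 1) * Y :=
      mul_le_mul_of_nonneg_left hb (by linarith)
    have h7 : κ * Y < κ * ((p + x) ^ 2 + (q + y) ^ 2) :=
      mul_lt_mul_of_pos_left h3 (by linarith)
    nlinarith
  have hd : dt a (b' - b) = 0 := by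
    have : dt a (b' - b) = dt a b' - dt a b := by
      unfold dt
      rw [QuadraticAlgebra.re_sub, QuadraticAlgebra.im_sub]
      ring
    rw [this, h1, h2]; ring
  obtain ⟨k, hk1, hk2⟩ := prim_mul ha hd
  rw [QuadraticAlgebra.re_sub] at hk1
  rw [QuadraticAlgebra.im_sub] at hk2
  rcases lt_trichotomy k 0 with hk | hk | hk
  · exact (key b' b (-k) (by omega) hb' hb h4 (by linarith) (by linarith)).elim
  · rw [hk] at hk1 hk2
    apply QuadraticAlgebra.ext <;> linarith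
  · exact (key b b' k (by omega) hb hb' h3 (by linarith) (by linarith)).elim

theorem edge_card {Y : ℝ} (hY : 1 ≤ Y) : ((edge 0 1 Y).card : ℝ) ≤ 9 * Y := by
  classical
  refine le_trans ?_ (ball_card hY)
  have : (edge 0 1 Y).card ≤ (ball 0 1 Y).card := by
    apply card_le_card_of_injOn (fun e => e.1)
    · intro e he
      have he' : e ∈ edge 0 1 Y := he
      unfold edge at he'
      rw [mem_filter, mem_product] at he'
      have := he'.1.1
      unfold pball at this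
      exact (mem_filter.1 this).1
    · intro e he e' he' hee
      have h1 : e ∈ edge 0 1 Y := he
      have h2 : e' ∈ edge 0 1 Y := he'
      unfold edge at h1 h2
      rw [mem_filter, mem_product, mem_pball hD01, mem_pball hD01] at h1 h2
      obtain ⟨a, b⟩ := e
      obtain ⟨a', b'⟩ := e'
      simp only at hee
      subst hee
      exact Prod.ext rfl (edge_aux h1.1.1.1 h1.2.1 h2.2.1 h1.1.2.2 h2.1.2.2 h1.2.2 h2.2.2)
  exact_mod_cast this

theorem good_card {K : ℕ} {κ : ℝ} {Q : ℕ} {X : ℝ} (hK : 1 ≤ K) (hQ : 1 ≤ Q)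
    (hX : 2 * (K * Q : ℝ) ≤ X) : ((good K κ Q X).card : ℝ) ≤ 9 * (X / (K * Q)) := by
  classical
  have hKQ : (1 : ℝ) ≤ K * Q := by
    have : 1 ≤ K * Q := Nat.mul_pos hK hQ
    exact_mod_cast this
  refine le_trans ?_ (edge_card (Y := X / (K * Q)) (by
    rw [le_div_iff₀ (by linarith)]; linarith))
  have : (good K κ Q X).card ≤ (edge 0 1 (X / (K * Q))).card := by
    unfold good
    exact card_le_card (filter_subset _ _)
  exact_mod_cast this

theorem cone_total (h4 : S_DTB) {K : ℕ} {κ : ℝ} {Q : ℕ} {X : ℝ} (hK : 1 ≤ K) (hκ : 0 < κ)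
    (hQ : 1 ≤ Q) (hX : 2 * (K * Q : ℝ) ≤ X) :
    ∑ e ∈ good K κ Q X, ((cone X e.1 e.2).card : ℝ) ≤ 36 * (1 / κ + 1) * X := by
  classical
  have hKQ : (1 : ℝ) ≤ K * Q := by
    have : 1 ≤ K * Q := Nat.mul_pos hK hQ
    exact_mod_cast this
  have h1 : ∑ e ∈ good K κ Q X, ((cone X e.1 e.2).card : ℝ) ≤
      ∑ e ∈ good K κ Q X, 4 * (K * Q / κ + 1) :=
    sum_le_sum fun e he => (h4 K κ Q X hK hκ hQ hX e he).1
  refine h1.trans ?_
  rw [sum_const, nsmul_eq_mul]
  have h2 := good_card (κ := κ) hK hQ hX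
  have h3 : (0 : ℝ) ≤ 4 * (K * Q / κ + 1) := by positivity
  refine (mul_le_mul_of_nonneg_right h2 h3).trans ?_
  have h5 : 9 * (X / (K * Q)) * (4 * (K * Q / κ + 1)) = 36 * X * (1 / κ + 1 / (K * Q)) := by
    field_simp
    ring
  rw [h5]
  have h6 : 1 / (K * Q : ℝ) ≤ 1 := by
    rw [div_le_one (by linarith)]; exact hKQ
  have hX0 : 0 ≤ X := by linarith
  calc 36 * X * (1 / κ + 1 / (K * Q)) ≤ 36 * X * (1 / κ + 1) := by
        apply mul_le_mul_of_nonneg_left _ (by linarith)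
        linarith
    _ = _ := by ring

end Pool.Agent.W554.EC
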