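import Pool.Agent.W554.EC.BTC

/-! # EC-B10: the second moment -/

set_option autoImplicit false

namespace Pool.Agent.W554.EC

open Finset Filter
open Pool.Agent.H376R2.MR
open Pool.Agent.W78.GA
open Pool.Agent.W78.EC

theorem psi_nonneg (x : ℝ) : 0 ≤ psi x := sq_nonneg _

theorem psi_le {x : ℝ} (hx : 0 ≤ x) : psi x ≤ 16 := by
  unfold psi
  have h1 : 0 ≤ max 0 (4 - x) := le_max_left _ _
  have h2 : max 0 (4 - x) ≤ 4 := max_le (by norm_num) (by linarith)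
  nlinarith

theorem psi_ge {x : ℝ} (hx : x ≤ 1) : 9 ≤ psi x := by
  unfold psi
  have h2 : 3 ≤ max 0 (4 - x) := le_trans (by linarith) (le_max_right _ _)
  nlinarith

theorem th_nonneg (Q : ℕ) (m : ℤ) : 0 ≤ th Q m := by
  unfold th
  split_ifs with h
  · apply Real.log_nonneg
    have : (1 : ℤ) ≤ m := h.1
    exact_mod_cast this
  · exact le_rfl

theorem th_le (Q : ℕ) (m : ℤ) : th Q m ≤ Real.log (2 * Q) * (if m ∈ Ioc (Q : ℤ) (2 * Q) then 1 else 0) := by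
  unfold th
  split_ifs with h h1 h1
  · rw [mul_one]
    apply Real.log_le_log
    · have := h.1
      exact_mod_cast this
    · rw [mem_Ioc] at h1
      exact_mod_cast h1.2
  · exfalso
    apply h1
    have h2 := h.2
    unfold PQ at h2
    rw [mem_filter, mem_Ioc] at h2
    rw [mem_Ioc]
    have := h.1
    omega
  · rw [mul_one]
    rcases Nat.eq_zero_or_pos Q with h0 | h0
    · rw [h0]; simp
    · apply Real.log_nonneg
      have : (1 : ℝ) ≤ Q := by exact_mod_cast h0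
      linarith
  · simp

theorem th_le' (Q : ℕ) (m : ℤ) (hQ : 1 ≤ Q) : th Q m ≤ Real.log (2 * Q) := by
  have h0 : 0 ≤ Real.log (2 * Q) := by
    apply Real.log_nonneg
    have : (1 : ℝ) ≤ Q := by exact_mod_cast hQ
    linarith
  refine (th_le Q m).trans ?_
  split_ifs
  · rw [mul_one]
  · rw [mul_zero]; exact h0

theorem Gv_symm (Q : ℕ) (X : ℝ) (w₁ w₂ : Gi) : Gv Q X w₁ w₂ = Gv Q X w₂ w₁ := by
  unfold Gv
  exact sum_congr rfl fun v _ => by ring

theorem Gv_nonneg (Q : ℕ) (X : ℝ) (w₁ w₂ : Gi) : 0 ≤ Gv Q X w₁ w₂ := by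
  unfold Gv
  exact sum_nonneg fun v _ => mul_nonneg (mul_nonneg (psi_nonneg _) (th_nonneg _ _)) (th_nonneg _ _)

theorem sq_expand (Q : ℕ) (X : ℝ) (W : Finset Gi) :
    ∑ v ∈ ball 0 1 (4 * X), psi (nm v / X) * (∑ w ∈ W, (gl w : ℝ) * th Q (dt v w)) ^ 2 =
      ∑ w₁ ∈ W, ∑ w₂ ∈ W, (gl w₁ : ℝ) * gl w₂ * Gv Q X w₁ w₂ := by
  unfold Gv
  simp only [mul_sum]
  rw [sum_congr rfl (fun w₁ _ => sum_comm), sum_comm]
  refine sum_congr rfl fun v _ => ?_
  rw [sq, sum_mul_sum, mul_sum]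
  refine sum_congr rfl fun w₁ _ => ?_
  rw [mul_sum]
  exact sum_congr rfl fun w₂ _ => by ring

/-- the number of points with determinant in a finite set -/
theorem count_dt {C : ℕ} {X : ℝ} {w : Gi} (hC : ∀ m : ℤ,
    ((ball 0 1 (4 * X)).filter (fun z => dt w z = m)).card ≤ C) (S : Finset ℤ) :
    ((ball 0 1 (4 * X)).filter (fun z => dt w z ∈ S)).card ≤ S.card * C := by
  classical
  have h := card_le_mul_card_image_of_maps_to (s := (ball 0 1 (4 * X)).filter (fun z => dt w z ∈ S))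
    (t := S) (f := fun z => dt w z) (fun z hz => (mem_filter.1 hz).2) C (fun m hm => by
      refine le_trans (card_le_card ?_) (hC m)
      intro z hz
      rw [mem_filter, mem_filter] at hz
      rw [mem_filter]
      exact ⟨hz.1.1, hz.2⟩)
  exact h.trans_eq (mul_comm _ _)

theorem dt_anti (v w : Gi) : dt v w = -dt w v := by
  unfold dt; ring

theorem Gv_le {C : ℕ} {Q : ℕ} {X : ℝ} {w₁ : Gi} (hX : 0 < X) (hQ : 1 ≤ Q) (hC : ∀ m : ℤ,
    ((ball 0 1 (4 * X)).filter (fun z => dt w₁ z = m)).card ≤ C) (w₂ : Gi) :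
    Gv Q X w₁ w₂ ≤ 16 * Real.log (2 * Q) ^ 2 * (Q * C) := by
  classical
  have h0 : 0 ≤ Real.log (2 * Q) := by
    apply Real.log_nonneg
    have : (1 : ℝ) ≤ Q := by exact_mod_cast hQ
    linarith
  set S : Finset ℤ := Ico (-(2 * (Q : ℤ))) (-Q) with hS
  have hSc : S.card = Q := by
    rw [hS, Int.card_Ico]; omega
  unfold Gv
  have h1 : ∀ v ∈ ball 0 1 (4 * X), psi (nm v / X) * th Q (dt v w₁) * th Q (dt v w₂) ≤
      16 * Real.log (2 * Q) ^ 2 * (if dt w₁ v ∈ S then 1 else 0) := by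
    intro v _
    have a1 : psi (nm v / X) ≤ 16 := psi_le (by positivity)
    have a0 := psi_nonneg (nm v / X)
    have a2 := th_le Q (dt v w₁)
    have a3 := th_le' Q (dt v w₂) hQ
    have a4 := th_nonneg Q (dt v w₂)
    have a5 := th_nonneg Q (dt v w₁)
    have a6 : (dt v w₁ ∈ Ioc (Q : ℤ) (2 * Q)) ↔ dt w₁ v ∈ S := by
      rw [hS, mem_Ioc, mem_Ico, dt_anti v w₁]
      omega
    simp only [a6] at a2
    calc psi (nm v / X) * th Q (dt v w₁) * th Q (dt v w₂) ≤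
        16 * (Real.log (2 * Q) * (if dt w₁ v ∈ S then 1 else 0)) * Real.log (2 * Q) := by
          apply mul_le_mul _ a3 a4
          · apply mul_nonneg (by norm_num)
            exact a5.trans a2
          · exact mul_le_mul a1 a2 a5 (by norm_num)
      _ = _ := by ring
  refine (sum_le_sum h1).trans ?_
  rw [← mul_sum, sum_boole]
  apply mul_le_mul_of_nonneg_left _ (by positivity)
  have h2 := count_dt hC S
  rw [hSc] at h2
  exact_mod_cast h2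

theorem cw_sub_cone (X s₁ s₂ : ℝ) (a b : Gi) : cw X s₁ s₂ a b ⊆ cone X a b := by
  unfold cw
  exact filter_subset _ _

theorem cone_mem {X : ℝ} {a b z : Gi} (h : z ∈ cone X a b) : prim z ∧ (nm z : ℝ) ≤ X := by
  unfold cone at h
  rw [mem_filter, mem_pball hD01] at h
  exact h.1

theorem cw_mem {X s₁ s₂ : ℝ} {a b z : Gi} (h : z ∈ cw X s₁ s₂ a b) :
    prim z ∧ s₁ * X < (nm z : ℝ) ∧ (nm z : ℝ) ≤ X := by
  have h1 := cone_mem (cw_sub_cone X s₁ s₂ a b h)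
  unfold cw at h
  rw [mem_filter] at h
  exact ⟨h1.1, h.2.1, h1.2⟩

open scoped Classical in
/-- splitting the double sum -/
theorem split3 (W : Finset Gi) (R : ℝ) (hR : 0 < R) (F : Gi → Gi → ℝ) (hF : ∀ a b, F a b = F b a) :
    ∑ w₁ ∈ W, ∑ w₂ ∈ W, F w₁ w₂ =
      2 * ∑ w₁ ∈ W, ∑ w₂ ∈ W, (if R ≤ (dt w₁ w₂ : ℝ) then F w₁ w₂ else 0) +
      ∑ w₁ ∈ W, ∑ w₂ ∈ W, (if |(dt w₁ w₂ : ℝ)| < R then F w₁ w₂ else 0) := by
  have h1 : ∑ w₁ ∈ W, ∑ w₂ ∈ W, (if R ≤ (dt w₁ w₂ : ℝ) then F w₁ w₂ else 0) =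
      ∑ w₁ ∈ W, ∑ w₂ ∈ W, (if R ≤ -(dt w₁ w₂ : ℝ) then F w₁ w₂ else 0) := by
    rw [sum_comm]
    refine sum_congr rfl fun a _ => sum_congr rfl fun b _ => ?_
    rw [dt_anti b a, hF b a]
    push_cast
    rfl
  have h2 : ∑ w₁ ∈ W, ∑ w₂ ∈ W, F w₁ w₂ =
      ∑ w₁ ∈ W, ∑ w₂ ∈ W, (if R ≤ (dt w₁ w₂ : ℝ) then F w₁ w₂ else 0) +
      ∑ w₁ ∈ W, ∑ w₂ ∈ W, (if R ≤ -(dt w₁ w₂ : ℝ) then F w₁ w₂ else 0) +
      ∑ w₁ ∈ W, ∑ w₂ ∈ W, (if |(dt w₁ w₂ : ℝ)| < R then F w₁ w₂ else 0) := by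
    simp only [← sum_add_distrib]
    refine sum_congr rfl fun a _ => sum_congr rfl fun b _ => ?_
    by_cases c1 : R ≤ (dt a b : ℝ)
    · rw [if_pos c1, if_neg (by linarith), if_neg (by
        rw [abs_of_pos (by linarith)]; linarith)]
      ring
    · rw [if_neg c1]
      by_cases c2 : R ≤ -(dt a b : ℝ)
      · rw [if_pos c2, if_neg (by
          rw [abs_of_neg (by linarith)]; linarith)]
        ring
      · rw [if_neg c2, if_pos (abs_lt.2 ⟨by linarith, by linarith⟩)]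
        ring
  rw [h2, ← h1]
  ring

theorem gl_abs (z : Gi) : |(gl z : ℝ)| = 1 := by
  rcases gl_eq z with h | h <;> rw [h] <;> simp

open scoped Classical in
/-- the pairs of small determinant -/
theorem small_part {C : ℕ} {Q : ℕ} {X s₁ s₂ R : ℝ} (hX : 0 < X) (hQ : 1 ≤ Q) (hR : 1 ≤ R)
    (hC : ∀ (w : Gi) (m : ℤ), prim w → s₁ * X < (nm w : ℝ) →
      ((ball 0 1 (4 * X)).filter (fun z => dt w z = m)).card ≤ C) (a b : Gi) :
    |∑ w₁ ∈ cw X s₁ s₂ a b, ∑ w₂ ∈ cw X s₁ s₂ a b,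
      (if |(dt w₁ w₂ : ℝ)| < R then (gl w₁ : ℝ) * gl w₂ * Gv Q X w₁ w₂ else 0)| ≤
      ((cone X a b).card : ℝ) * (48 * (C : ℝ) ^ 2 * R * Q * Real.log (2 * Q) ^ 2) := by
  have h0 : 0 ≤ Real.log (2 * Q) := by
    apply Real.log_nonneg
    have : (1 : ℝ) ≤ Q := by exact_mod_cast hQ
    linarith
  have hin : ∀ w₁ ∈ cw X s₁ s₂ a b, |∑ w₂ ∈ cw X s₁ s₂ a b,
      (if |(dt w₁ w₂ : ℝ)| < R then (gl w₁ : ℝ) * gl w₂ * Gv Q X w₁ w₂ else 0)| ≤
      48 * (C : ℝ) ^ 2 * R * Q * Real.log (2 * Q) ^ 2 := by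
    intro w₁ hw₁
    obtain ⟨p1, p2, p3⟩ := cw_mem hw₁
    have hCw := fun m => hC w₁ m p1 p2
    set S : Finset ℤ := Icc (-(⌊R⌋₊ : ℤ)) ⌊R⌋₊ with hS
    have hSc : S.card = 2 * ⌊R⌋₊ + 1 := by
      rw [hS, Int.card_Icc]; omega
    refine (abs_sum_le_sum_abs _ _).trans ?_
    have h1 : ∀ w₂ ∈ cw X s₁ s₂ a b,
        |(if |(dt w₁ w₂ : ℝ)| < R then (gl w₁ : ℝ) * gl w₂ * Gv Q X w₁ w₂ else 0)| ≤
        16 * Real.log (2 * Q) ^ 2 * (Q * C) * (if dt w₁ w₂ ∈ S then 1 else 0) := by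
      intro w₂ _
      by_cases c1 : |(dt w₁ w₂ : ℝ)| < R
      · have c2 : dt w₁ w₂ ∈ S := by
          rw [hS, mem_Icc, ← abs_le]
          have h3 : ((|dt w₁ w₂| : ℤ) : ℝ) < R := by push_cast; exact c1
          have h4 : (dt w₁ w₂).natAbs ≤ ⌊R⌋₊ := by
            apply Nat.le_floor
            have h5 : (((dt w₁ w₂).natAbs : ℕ) : ℝ) = |(dt w₁ w₂ : ℝ)| := by
              rw [Nat.cast_natAbs]; simp
            rw [h5]; exact c1.le
          rw [Int.abs_eq_natAbs]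
          exact_mod_cast h4
        rw [if_pos c1, if_pos c2, mul_one, abs_mul, abs_mul, gl_abs, gl_abs, one_mul, one_mul,
          abs_of_nonneg (Gv_nonneg _ _ _ _)]
        exact Gv_le hX hQ hCw w₂
      · rw [if_neg c1, abs_zero]
        split_ifs <;> positivity
    refine (sum_le_sum h1).trans ?_
    rw [← mul_sum, sum_boole]
    have h2 : ((cw X s₁ s₂ a b).filter (fun z => dt w₁ z ∈ S)).card ≤
        ((ball 0 1 (4 * X)).filter (fun z => dt w₁ z ∈ S)).card := by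
      apply card_le_card
      intro z hz
      rw [mem_filter] at hz ⊢
      refine ⟨?_, hz.2⟩
      obtain ⟨q1, q2, q3⟩ := cw_mem hz.1
      rw [mem_ball hD01]
      exact ⟨(one_le_nm hD01).2 (prim_ne_zero q1), by linarith⟩
    have h3 := h2.trans (count_dt hCw S)
    rw [hSc] at h3
    have h4 : (((cw X s₁ s₂ a b).filter (fun z => dt w₁ z ∈ S)).card : ℝ) ≤
        (2 * (⌊R⌋₊ : ℝ) + 1) * C := by exact_mod_cast h3
    have h5 : (⌊R⌋₊ : ℝ) ≤ R := Nat.floor_le (by linarith)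
    have h6 : (2 * (⌊R⌋₊ : ℝ) + 1) * C ≤ 3 * R * C :=
      mul_le_mul_of_nonneg_right (by linarith) (Nat.cast_nonneg _)
    calc 16 * Real.log (2 * Q) ^ 2 * (Q * C) *
          (((cw X s₁ s₂ a b).filter (fun z => dt w₁ z ∈ S)).card : ℝ)
        ≤ 16 * Real.log (2 * Q) ^ 2 * (Q * C) * (3 * R * C) :=
          mul_le_mul_of_nonneg_left (h4.trans h6) (by positivity)
      _ = _ := by ring
  refine (abs_sum_le_sum_abs _ _).trans ((sum_le_sum hin).trans ?_)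
  rw [sum_const, nsmul_eq_mul]
  apply mul_le_mul_of_nonneg_right _ (by positivity)
  exact_mod_cast card_le_card (cw_sub_cone X s₁ s₂ a b)

end Pool.Agent.W554.EC
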